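import Pool.Agent.W98.OS.Defs

/-!
Project OS, part PE: the values of the explicit polynomials.
-/

set_option autoImplicit false

namespace Pool.Agent.W479.OS

open Pool.Agent.W98.OS

section Identity

open PowerSeries

/-- the series of `(1 - X ^ 2) ^ (-(d + 1))` -/
noncomputable def F (d : ℕ) : ℚ⟦X⟧ :=
  PowerSeries.mk (fun k => if 2 ∣ k then ((d + k / 2).choose (k / 2) : ℚ) else 0)

/-- the series of `(1 - X) ^ (-(d + 1))` -/
noncomputable def H (d : ℕ) : ℚ⟦X⟧ := PowerSeries.mk (fun k => ((d + k).choose k : ℚ))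

theorem F_succ (d : ℕ) : (1 - X ^ 2) * F (d + 1) = F d := by
  ext k
  rw [sub_mul, one_mul, map_sub, coeff_X_pow_mul']
  unfold F
  rw [coeff_mk, coeff_mk]
  rcases Nat.even_or_odd' k with ⟨m, rfl | rfl⟩
  · cases m with
    | zero => simp
    | succ m =>
      have h1 : 2 ≤ 2 * (m + 1) := by omega
      have h2 : 2 * (m + 1) - 2 = 2 * m := by omega
      have h3 : 2 * (m + 1) / 2 = m + 1 := by omega
      have h4 : 2 * m / 2 = m := by omega
      rw [if_pos h1, h2, coeff_mk, if_pos (dvd_mul_right _ _), if_pos (dvd_mul_right _ _),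
        if_pos (dvd_mul_right _ _), h3, h4]
      have h5 : (d + 1 + (m + 1)).choose (m + 1) =
          (d + 1 + m).choose m + (d + (m + 1)).choose (m + 1) := by
        rw [show d + 1 + (m + 1) = (d + 1 + m) + 1 by ring, Nat.choose_succ_succ,
          show d + (m + 1) = d + 1 + m by ring]
      rw [h5]
      push_cast
      ring
  · have h1 : ¬ 2 ∣ 2 * m + 1 := by omega
    rw [coeff_mk, if_neg h1, if_neg h1]
    split_ifs with h2 h3
    · exfalso
      omega
    · ring
    · ring

theorem F_zero : (1 - X ^ 2) * F 0 = 1 := by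
  ext k
  rw [sub_mul, one_mul, map_sub, coeff_X_pow_mul', coeff_one]
  unfold F
  rw [coeff_mk]
  rcases Nat.even_or_odd' k with ⟨m, rfl | rfl⟩
  · cases m with
    | zero => simp
    | succ m =>
      have h1 : 2 ≤ 2 * (m + 1) := by omega
      have h2 : 2 * (m + 1) - 2 = 2 * m := by omega
      rw [if_pos h1, h2, coeff_mk, if_pos (dvd_mul_right _ _), if_pos (dvd_mul_right _ _),
        if_neg (by omega)]
      simp
  · have h1 : ¬ 2 ∣ 2 * m + 1 := by omega
    have h0 : ¬ 2 * m + 1 = 0 := by omega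
    rw [coeff_mk, if_neg h1, if_neg h0]
    split_ifs with h2 h3
    · exfalso
      omega
    · ring
    · ring

theorem F_pow (d : ℕ) : (1 - X ^ 2) ^ (d + 1) * F d = 1 := by
  induction d with
  | zero => rw [zero_add, pow_one, F_zero]
  | succ d ih => rw [pow_succ, mul_assoc, F_succ, ih]

theorem H_pow (d : ℕ) : H d * (1 - X) ^ (d + 1) = 1 := by
  have h1 : H d = PowerSeries.mk (fun k => ((d + k).choose d : ℚ)) := by
    unfold H
    congr 1
    ext k
    rw [Nat.choose_symm_add]
  rw [h1]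
  exact mk_add_choose_mul_one_sub_pow_eq_one ℚ d

theorem F_H (M : ℕ) : F M * (1 + X) ^ (3 * M + 1) = H M * (1 + X) ^ (2 * M) := by
  have h1 : (1 + X : ℚ⟦X⟧) ^ (M + 1) * F M = H M := by
    calc (1 + X : ℚ⟦X⟧) ^ (M + 1) * F M
        = (1 + X) ^ (M + 1) * F M * (H M * (1 - X) ^ (M + 1)) := by rw [H_pow, mul_one]
      _ = ((1 - X ^ 2) ^ (M + 1) * F M) * H M := by
          have : (1 - X ^ 2 : ℚ⟦X⟧) = (1 + X) * (1 - X) := by ring
          rw [this, mul_pow]
          ring
      _ = H M := by rw [F_pow, one_mul]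
  rw [← h1]
  ring

theorem coeff_pow_one_add (N k : ℕ) : coeff k ((1 + X : ℚ⟦X⟧) ^ N) = (N.choose k : ℚ) := by
  have h1 : ((1 + X : ℚ⟦X⟧) ^ N) = (((1 + Polynomial.X : Polynomial ℚ) ^ N : Polynomial ℚ) :
      ℚ⟦X⟧) := by
    push_cast
    rfl
  rw [h1, Polynomial.coeff_coe, Polynomial.coeff_one_add_X_pow]

theorem sum_even_odd (f : ℕ → ℚ) (m : ℕ) :
    ∑ k ∈ Finset.range (2 * m), f k = ∑ i ∈ Finset.range m, (f (2 * i) + f (2 * i + 1)) := by
  induction m with
  | zero => simp
  | succ m ih =>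
    rw [show 2 * (m + 1) = 2 * m + 1 + 1 by ring, Finset.sum_range_succ, Finset.sum_range_succ,
      Finset.sum_range_succ, ih]
    ring

theorem key (n : ℕ) : ∑ i ∈ Finset.range (n + 1),
    ((6 * n + 4).choose (2 * n + 1 - 2 * i) : ℚ) * ((2 * n + 1 + i).choose i : ℚ) = cst n := by
  have h1 := congrArg (coeff (2 * n + 1)) (F_H (2 * n + 1))
  rw [coeff_mul, coeff_mul, Finset.Nat.sum_antidiagonal_eq_sum_range_succ
      (fun a b => coeff a (F (2 * n + 1)) * coeff b ((1 + X : ℚ⟦X⟧) ^ (3 * (2 * n + 1) + 1))),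
    Finset.Nat.sum_antidiagonal_eq_sum_range_succ
      (fun a b => coeff a (H (2 * n + 1)) * coeff b ((1 + X : ℚ⟦X⟧) ^ (2 * (2 * n + 1))))] at h1
  simp only [coeff_pow_one_add] at h1
  rw [show (2 * n + 1).succ = 2 * (n + 1) by omega, sum_even_odd] at h1
  have h2 : ∀ i ∈ Finset.range (n + 1),
      (coeff (2 * i) (F (2 * n + 1)) * ((3 * (2 * n + 1) + 1).choose (2 * n + 1 - 2 * i) : ℚ) +
        coeff (2 * i + 1) (F (2 * n + 1)) *
          ((3 * (2 * n + 1) + 1).choose (2 * n + 1 - (2 * i + 1)) : ℚ)) =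
      ((6 * n + 4).choose (2 * n + 1 - 2 * i) : ℚ) * ((2 * n + 1 + i).choose i : ℚ) := by
    intro i _
    unfold F
    rw [coeff_mk, coeff_mk, if_pos (dvd_mul_right _ _), if_neg (by omega), zero_mul, add_zero,
      Nat.mul_div_cancel_left i (by norm_num), show 3 * (2 * n + 1) + 1 = 6 * n + 4 by ring,
      mul_comm]
  rw [Finset.sum_congr rfl h2] at h1
  rw [h1]
  have h3 : ∀ k ∈ Finset.range (2 * (n + 1)),
      coeff k (H (2 * n + 1)) * ((2 * (2 * n + 1)).choose (2 * n + 1 - k) : ℚ) =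
      ((2 * (2 * n + 1)).choose (2 * n + 1) : ℚ) * ((2 * n + 1).choose k : ℚ) := by
    intro k hk
    rw [Finset.mem_range] at hk
    unfold H
    rw [coeff_mk]
    have h4 := Nat.choose_mul (n := 2 * (2 * n + 1)) (k := 2 * n + 1 + k) (s := 2 * n + 1)
      (by omega)
    have h5 : (2 * (2 * n + 1)).choose (2 * n + 1 + k) =
        (2 * (2 * n + 1)).choose (2 * n + 1 - k) := by
      apply Nat.choose_symm_of_eq_add
      omega
    rw [h5, show 2 * (2 * n + 1) - (2 * n + 1) = 2 * n + 1 by omega,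
      show 2 * n + 1 + k - (2 * n + 1) = k by omega, Nat.choose_symm_add] at h4
    rw [mul_comm]
    exact_mod_cast h4
  rw [Finset.sum_congr rfl h3, ← Finset.mul_sum, show 2 * (n + 1) = 2 * n + 1 + 1 by ring,
    ← Nat.cast_sum, Nat.sum_range_choose]
  unfold cst
  rw [show 2 * (2 * n + 1) = 4 * n + 2 by ring]
  push_cast
  ring

end Identity

section Poly

open Polynomial

theorem T_PE : S_PE := by
  intro n
  have hdeg : (4 - X : ℚ[X]).natDegree ≤ 1 := by
    compute_degree
  refine ⟨?_, ?_, ?_, ?_⟩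
  · unfold Pe
    apply Polynomial.natDegree_sum_le_of_forall_le
    intro i hi
    rw [Finset.mem_range] at hi
    have h1 : ((4 - X : ℚ[X]) ^ (n - i)).natDegree ≤ n - i := by
      have := Polynomial.natDegree_pow_le_of_le (n - i) hdeg
      rwa [mul_one] at this
    have h2 := Polynomial.natDegree_mul_le_of_le (Polynomial.natDegree_mul_le_of_le
      (le_of_eq (Polynomial.natDegree_C ((-1) ^ i * ((6 * n + 4).choose (2 * n + 1 - 2 * i) : ℚ) *
        ((2 * n + 1 + i).choose i : ℚ)))) (Polynomial.natDegree_X_pow_le (R := ℚ) i)) h1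
    exact h2.trans (by omega)
  · unfold Pe
    rw [Polynomial.finsetSum_coeff, ← key, Finset.mul_sum]
    apply Finset.sum_congr rfl
    intro i hi
    rw [Finset.mem_range] at hi
    rw [mul_assoc, Polynomial.coeff_C_mul, Polynomial.coeff_X_pow_mul', if_pos (by omega)]
    have h1 := Polynomial.coeff_pow_of_natDegree_le (m := n - i) hdeg
    rw [mul_one] at h1
    rw [h1]
    have h2 : (4 - X : ℚ[X]).coeff 1 = -1 := by
      rw [Polynomial.coeff_sub, Polynomial.coeff_X_one]
      have : (4 : ℚ[X]) = C 4 := rfl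
      rw [this, Polynomial.coeff_C_of_ne_zero (by norm_num)]
      ring
    rw [h2]
    have h3 : (-1 : ℚ) ^ n = (-1) ^ i * (-1) ^ (n - i) := by
      rw [← pow_add]
      congr 1
      omega
    rw [h3]
    ring
  · unfold Pe
    rw [Polynomial.eval_finsetSum, Finset.sum_eq_single 0]
    · simp
      ring
    · intro i _ hi
      simp [hi]
    · intro h
      simp at h
  · unfold Pe
    rw [Polynomial.eval_finsetSum, Finset.sum_eq_single n]
    · have h1 : 2 * n + 1 - 2 * n = 1 := by omega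
      have h2 : 2 * n + 1 + n = 3 * n + 1 := by ring
      simp [h1, h2]
      ring
    · intro i hi hin
      rw [Finset.mem_range] at hi
      have h1 : n - i ≠ 0 := by omega
      simp [h1]
    · intro h
      simp at h

end Poly

end Pool.Agent.W479.OS
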